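import Pool.Agent.helper12.KZ.Spec

/-!
# Project kz (MP_baa4d7_al), row KNA: alternating groups have no normal subgroup of prime index
-/

set_option autoImplicit false

namespace Pool.Agent.KZ

open Pool.Agent.helper58.DC Pool.Agent.DI Pool.Agent.TY

theorem KNA : KNA_stmt := by
  intro m l hm hl B hB hidx
  have hcard : Nat.card (alternatingGroup (Fin m) ⧸ B) = l := hidx
  have hcomm : ∀ x y : alternatingGroup (Fin m) ⧸ B, x * y = y * x := by
    have hcyc : IsCyclic (alternatingGroup (Fin m) ⧸ B) := by
      have : Fact l.Prime := ⟨hl⟩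
      exact isCyclic_of_prime_card hcard
    intro x y
    exact (IsCyclic.isMulCommutative (α := alternatingGroup (Fin m) ⧸ B)).is_comm.comm x y
  have hle : commutator (alternatingGroup (Fin m)) ≤ B := by
    rw [commutator_def, Subgroup.commutator_le]
    intro a _ b _
    rw [commutatorElement_def, ← QuotientGroup.eq_one_iff]
    have h1 : ((a * b * a⁻¹ * b⁻¹ : alternatingGroup (Fin m)) : alternatingGroup (Fin m) ⧸ B) =
        (a : alternatingGroup (Fin m) ⧸ B) * b * (a : alternatingGroup (Fin m) ⧸ B)⁻¹ *
          (b : alternatingGroup (Fin m) ⧸ B)⁻¹ := rfl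
    rw [h1, hcomm (a : alternatingGroup (Fin m) ⧸ B) b, mul_assoc (b : alternatingGroup (Fin m) ⧸ B),
      mul_inv_cancel, mul_one, mul_inv_cancel]
  have h5 : 5 ≤ Nat.card (Fin m) := by rw [Nat.card_eq_fintype_card, Fintype.card_fin]; exact hm
  have htop : B = ⊤ := by
    rw [eq_top_iff, ← commutator_alternatingGroup_eq_top h5]
    exact hle
  rw [htop, Subgroup.index_top] at hidx
  exact hl.one_lt.ne hidx

end Pool.Agent.KZ
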