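import Pool.Agent.helper12.KZ.Spec

/-!
# Project kz (MP_baa4d7_al), row KSU: subgroups of `A × Tp l` mapped onto `A`
-/

set_option autoImplicit false

namespace Pool.Agent.KZ

open Pool.Agent.helper58.DC Pool.Agent.DI Pool.Agent.TY

theorem KSU : KSU_stmt := by
  intro l hl A _ _ hN U
  constructor
  · intro hU
    have hsurj : ∀ a : A, ∃ t : Tp l, (a, t) ∈ U := by
      intro a
      have ha : a ∈ U.map (MonoidHom.fst A (Tp l)) := by rw [hU]; exact Subgroup.mem_top a
      obtain ⟨⟨a', t⟩, hx, hxa⟩ := Subgroup.mem_map.1 ha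
      have : a' = a := hxa
      exact ⟨t, this ▸ hx⟩
    have hcard : Nat.card (Tp l) = l := by
      have : Nat.card (Tp l) = Nat.card (ZMod l) := Nat.card_congr Multiplicative.toAdd
      rw [this, Nat.card_zmod]
    have hKcases : U.comap (MonoidHom.inr A (Tp l)) = ⊥ ∨ U.comap (MonoidHom.inr A (Tp l)) = ⊤ := by
      have hp : (Nat.card (Tp l)).Prime := by rw [hcard]; exact hl.out
      have : Fact (Nat.card (Tp l)).Prime := ⟨hp⟩
      exact Subgroup.eq_bot_or_eq_top_of_prime_card _
    rcases hKcases with hK | hK
    · right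
      have hK1 : ∀ t : Tp l, ((1 : A), t) ∈ U → t = 1 := by
        intro t ht
        have : t ∈ U.comap (MonoidHom.inr A (Tp l)) := ht
        rw [hK] at this
        exact Subgroup.mem_bot.1 this
      have huniq : ∀ (a : A) (s t : Tp l), (a, s) ∈ U → (a, t) ∈ U → s = t := by
        intro a s t hs ht
        have h1 : (a, s)⁻¹ * (a, t) ∈ U := U.mul_mem (U.inv_mem hs) ht
        have h2 : ((a, s)⁻¹ * (a, t) : A × Tp l) = (1, s⁻¹ * t) := by
          ext
          · simp
          · rfl
        rw [h2] at h1
        have h3 := hK1 _ h1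
        rw [inv_mul_eq_one] at h3
        exact h3
      choose f hf using hsurj
      let F : A →* Tp l := MonoidHom.mk' f (fun a b => huniq (a * b) _ _ (hf (a * b)) (by
        have := U.mul_mem (hf a) (hf b)
        exact this))
      have hFker : ∀ a : A, a ∈ F.ker ↔ (a, (1 : Tp l)) ∈ U := by
        intro a
        rw [MonoidHom.mem_ker]
        constructor
        · intro h
          have h1 : f a = 1 := h
          rw [← h1]
          exact hf a
        · intro h
          exact huniq a _ _ (hf a) h
      have hidx : F.ker.index = Nat.card F.range := Subgroup.index_ker F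
      have hdvd : F.ker.index ∣ l := by
        rw [hidx]
        have h1 := Subgroup.card_subgroup_dvd_card F.range
        rw [hcard] at h1
        exact h1
      have h1 : F.ker.index = 1 := by
        rcases (Nat.dvd_prime hl.out).1 hdvd with h | h
        · exact h
        · exact absurd h (hN F.ker (MonoidHom.normal_ker F))
      have htop : F.ker = ⊤ := Subgroup.index_eq_one.1 h1
      have hall : ∀ a : A, (a, (1 : Tp l)) ∈ U := by
        intro a
        rw [← hFker, htop]
        exact Subgroup.mem_top a
      ext ⟨a, t⟩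
      rw [Subgroup.mem_prod]
      constructor
      · intro h
        exact ⟨Subgroup.mem_top a, Subgroup.mem_bot.2 (huniq a t 1 h (hall a))⟩
      · rintro ⟨-, h⟩
        have h2 : t = 1 := Subgroup.mem_bot.1 h
        rw [h2]
        exact hall a
    · left
      rw [eq_top_iff]
      rintro ⟨a, t⟩ -
      obtain ⟨s, hs⟩ := hsurj a
      have h1 : s⁻¹ * t ∈ U.comap (MonoidHom.inr A (Tp l)) := by rw [hK]; exact Subgroup.mem_top _
      have h2 : ((1 : A), s⁻¹ * t) ∈ U := h1
      have h3 := U.mul_mem hs h2
      have h4 : ((a, s) * (1, s⁻¹ * t) : A × Tp l) = (a, t) := by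
        ext
        · simp
        · change s * (s⁻¹ * t) = t
          rw [mul_inv_cancel_left]
      rw [h4] at h3
      exact h3
  · rintro (rfl | rfl)
    · rw [← MonoidHom.range_eq_map, MonoidHom.range_eq_top]
      intro a
      exact ⟨(a, 1), rfl⟩
    · rw [eq_top_iff]
      intro a _
      exact Subgroup.mem_map.2 ⟨(a, 1), Subgroup.mem_prod.2 ⟨Subgroup.mem_top _, Subgroup.one_mem _⟩, rfl⟩

end Pool.Agent.KZ
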